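import Pool.Agent.Helper77.SO.St
import Pool.Agent.Helper35.PM.M_POT

/-!
# Project SO: module IM (corners with equal ends)
-/

set_option autoImplicit false

namespace Pool.Agent.Helper78.SO.IM

open Equiv Equiv.Perm Pool.Agent.Helper35.PM Pool.Agent.Helper77.HY Pool.Agent.Helper77.OF4
  Pool.Agent.Helper77.SO

variable {V D : Type}

theorem z01 : ∀ z : ZMod 2, z = 0 ∨ z = 1 := by decide

theorem ne_iff_one : ∀ z : ZMod 2, z ≠ 0 → z = 1 := by decide

/-- a function which is constant along the rotation at a vertex -/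
theorem const_at (M : PMap V D) [Finite D] (c : D → ZMod 2) (u : V)
    (h : ∀ e, M.t e ≠ u → c (M.r e) = c e) (a b : D) (ha : M.t a ≠ u) (hab : M.t a = M.t b) :
    c a = c b := by
  obtain ⟨n, hn⟩ := (M.trans a b hab).exists_nat_pow_eq
  have key : ∀ n : ℕ, M.t ((M.r ^ n) a) = M.t a ∧ c ((M.r ^ n) a) = c a := by
    intro n
    induction n with
    | zero => simp
    | succ n ih =>
      rw [pow_succ', Perm.mul_apply]
      exact ⟨by rw [M.t_r, ih.1], by rw [h _ (by rw [ih.1]; exact ha), ih.2]⟩
  rw [← hn, (key n).2]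

theorem cut_add (M : PMap V D) (p : D → ZMod 2) (c : ZMod 2) :
    cut M (fun e => p e + c) = cut M p := by
  unfold cut
  congr 1
  ext e
  simp

theorem FC.add {M : PMap V D} {p : D → ZMod 2} (h : FC M p) (c : ZMod 2) :
    FC M (fun e => p e + c) := fun d => by simp only [h d]

theorem Sep.add {M : PMap V D} {p : D → ZMod 2} (h : Sep M p) (c : ZMod 2) :
    Sep M (fun e => p e + c) := by
  obtain ⟨a, b, ha, hb, hab⟩ := h
  exact ⟨a, b, ha, hb, fun h => hab (add_right_cancel h)⟩

/-- a nonconstant function which does not separate has cut at least four -/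
theorem four_le [Finite D] (hPar : StPar) (hCn : StCn0) {M : PMap V D} (hc : Conn M)
    {p : D → ZMod 2} (hp : FC M p) (hs : ¬ Sep M p) {a b : D} (hab : p a ≠ p b) :
    4 ≤ cut M p := by
  obtain ⟨k, hk1, -, hk3⟩ := hPar V D M p hp
  have h1 : ¬ Odd k := fun h => hs (hk3 h)
  have h2 : k ≠ 0 := by
    rintro rfl
    exact hab (hCn V D M p hc hp (by rw [hk1]) a b)
  rw [Nat.not_odd_iff_even] at h1
  obtain ⟨j, hj⟩ := h1
  omega

theorem main (hPar : StPar) (hSub : StSub2) (hCn : StCn0)
    (hCutV : Pool.Agent.Helper35.PM.StCutV) : StIm := by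
  intro V D _ M L d hL hHC hConn hOG htd hdd
  classical
  have hloop := hOG.1
  have tφ : ∀ e, M.t (M.φ e) = M.t (M.ι e) := t_φ M
  have hz : M.t (M.φ d) ≠ M.t d := by rw [tφ]; exact hloop d
  have tιφ : M.t (M.ι (M.φ d)) = M.t d := by rw [← tφ, htd]
  refine ⟨fun heq => ?_, fun hDg => ?_⟩
  · -- the cut vertex
    have hsc : M.φ.SameCycle d (M.φ (M.φ d)) := by
      rw [sameCycle_apply_right, sameCycle_apply_right]
    obtain ⟨c, hc1, hc2, hc3⟩ := hCutV V D M d (M.φ (M.φ d)) (Ne.symm hdd) htd.symm hsc
    apply hc3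
    have h1 : M.t (M.ι d) = M.t (M.ι (M.φ (M.φ d))) := by
      rw [← tφ d, ← tφ (M.φ (M.φ d)), heq]
    have h2 := const_at M c (M.t d) hc2 (M.ι d) (M.ι (M.φ (M.φ d)))
      (by rw [← tφ]; exact hz) h1
    rw [← hc1 d, h2, hc1]
  · obtain ⟨q0, hq0F, hq0S, hq01, hq02, hq0c⟩ := hDg
    -- normalisation
    obtain ⟨q, hq⟩ : ∃ q : D → ZMod 2, q = fun e => q0 e + q0 d := ⟨_, rfl⟩
    have hqF : FC M q := by rw [hq]; exact FC.add hq0F _
    have hqS : Sep M q := by rw [hq]; exact Sep.add hq0S _
    have hqc : cut M q ≤ 2 * L + 2 := by rw [hq, cut_add]; exact hq0c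
    have hqd : q d = 0 := by rw [hq]; exact zadd_self _
    have hqφ : q (M.φ d) = 0 := by rw [hqF, hqd]
    have hq1 : q (M.ι (M.φ d)) = 1 := by
      apply ne_iff_one
      rw [← hqφ, hq]
      intro h
      exact hq01 (add_right_cancel h)
    have hq2 : q (M.ι (M.φ (M.φ d))) = 1 := by
      apply ne_iff_one
      rw [← hqφ, hq]
      intro h
      exact hq02 (add_right_cancel h)
    -- distinct darts
    have n1 : M.ι d ≠ M.φ d := by
      intro h
      rw [← h, M.inv, hqd] at hq1
      exact zero_ne_one hq1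
    have n2 : d ≠ M.ι d := (M.nofix d).symm
    have n3 : d ≠ M.φ d := fun h => hz (by rw [← h])
    have n4 : d ≠ M.ι (M.φ d) := by
      intro h
      apply n1
      rw [h, M.inv]
      rw [← h]
    have n5 : M.φ d ≠ M.ι (M.φ d) := (M.nofix _).symm
    have n6 : M.φ (M.φ d) ≠ M.ι d := by
      intro h
      have := congrArg M.t h
      rw [htd, ← tφ] at this
      exact hz this.symm
    have n7 : M.φ (M.φ d) ≠ M.φ d := by
      intro h
      have := congrArg M.t h
      rw [htd] at this
      exact hz this.symm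
    have n8 : M.φ (M.φ d) ≠ M.ι (M.φ d) := by
      intro h
      rw [h, M.inv, hqφ] at hq2
      exact zero_ne_one hq2
    -- the indicator function
    obtain ⟨x, hx⟩ : ∃ x : D → ZMod 2, x = fun e => (if e = d then 1 else 0) +
      (if e = M.ι d then 1 else 0) + (if e = M.φ d then 1 else 0) +
      (if e = M.ι (M.φ d) then 1 else 0) := ⟨_, rfl⟩
    have hιeq : ∀ a b : D, (M.ι a = b) ↔ (a = M.ι b) := by
      intro a b
      constructor
      · intro h
        rw [← h, M.inv]
      · intro h
        rw [h, M.inv]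
    have hxι : ∀ e, x (M.ι e) = x e := by
      intro e
      rw [hx]
      simp only [hιeq, M.inv d, M.inv (M.φ d)]
      ring
    have hxsum : ∀ (_ : Fintype D) (v : V),
        ∑ e ∈ Finset.univ.filter (fun e => M.t e = v), x e = 0 := by
      intro _ v
      have hone : ∀ a : D, ∑ e ∈ Finset.univ.filter (fun e => M.t e = v),
          (if e = a then (1 : ZMod 2) else 0) = if M.t a = v then 1 else 0 := by
        intro a
        rw [Finset.sum_ite_eq']
        simp
      rw [hx]
      simp only
      rw [Finset.sum_add_distrib, Finset.sum_add_distrib, Finset.sum_add_distrib, hone, hone,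
        hone, hone, tιφ, tφ d]
      generalize (if M.t d = v then (1 : ZMod 2) else 0) = a
      generalize (if M.t (M.ι d) = v then (1 : ZMod 2) else 0) = b
      revert a b
      decide
    obtain ⟨w0, hw01, hw02⟩ : ∃ w : D → ZMod 2, (∀ e, w (M.r e) = w e + x e) ∧
        ∀ e, w (M.ι e) = w e + x e := by
      have hfin : Fintype D := Fintype.ofFinite D
      obtain ⟨u0, hu0⟩ := Pool.Agent.Helper35.PM.M_POT.main V D M x (hxsum hfin)
      exact M.pl x u0 hxι hu0
    obtain ⟨w, hw⟩ : ∃ w : D → ZMod 2, w = fun e => w0 e + w0 d := ⟨_, rfl⟩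
    have hwι : ∀ e, w (M.ι e) = w e + x e := by
      intro e
      rw [hw]
      simp only [hw02]
      ring
    have hwF : FC M w := by
      intro e
      have h1 : w0 (M.φ e) = w0 e := by
        rw [PMap.φ_apply, hw01, hxι, hw02, zadd_self']
      rw [hw]
      simp only [h1]
    have hwd : w d = 0 := by rw [hw]; exact zadd_self _
    have hwφ : w (M.φ d) = 0 := by rw [hwF, hwd]
    have hwφφ : w (M.φ (M.φ d)) = 0 := by rw [hwF, hwφ]
    have hxd : x d = 1 := by
      rw [hx]
      simp [n2, n3, n4]
    have hxφ : x (M.φ d) = 1 := by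
      rw [hx]
      simp [n3.symm, n1.symm, n5]
    have hxφφ : x (M.φ (M.φ d)) = 0 := by
      rw [hx]
      simp only [if_neg hdd, if_neg n6, if_neg n7, if_neg n8, add_zero]
    have hw1 : w (M.ι d) = 1 := by rw [hwι, hwd, hxd, zero_add]
    have hw2 : w (M.ι (M.φ d)) = 1 := by rw [hwι, hwφ, hxφ, zero_add]
    have hw3 : w (M.ι (M.φ (M.φ d))) = 0 := by rw [hwι, hwφφ, hxφφ, zero_add]
    have hwc : cut M w ≤ 4 := by
      unfold cut
      have hsub : {e | w (M.ι e) ≠ w e} ⊆
          ({d, M.ι d, M.φ d, M.ι (M.φ d)} : Set D) := by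
        intro e he
        by_contra h
        simp only [Set.mem_insert_iff, Set.mem_singleton_iff, not_or] at h
        obtain ⟨h1, h2, h3, h4⟩ := h
        apply he
        have h5 : x e = 0 := by
          rw [hx]
          simp only [if_neg h1, if_neg h2, if_neg h3, if_neg h4, add_zero]
        rw [hwι, h5, add_zero]
      refine (Set.ncard_le_ncard hsub (Set.toFinite _)).trans ?_
      refine (Set.ncard_insert_le _ _).trans ?_
      have k1 := Set.ncard_insert_le (M.ι d) ({M.φ d, M.ι (M.φ d)} : Set D)
      have k2 := Set.ncard_insert_le (M.φ d) ({M.ι (M.φ d)} : Set D)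
      rw [Set.ncard_singleton] at k2
      omega
    have hwS : ¬ Sep M w := by
      intro h
      have := hHC w hwF h
      omega
    obtain ⟨a0, b0, ha0, hb0, hab0⟩ := hqS
    have hodd : ∀ e, OddD M e → w e = w a0 := by
      intro e he
      by_contra h
      exact hwS ⟨e, a0, he, ha0, h⟩
    rcases z01 (w a0) with hcase | hcase
    · -- no odd dart has the value one
      rw [hcase] at hodd
      have hprodF : FC M (fun e => q e * w e) := by
        intro e
        simp only [hqF e, hwF e]
      have hprodS : ¬ Sep M (fun e => q e * w e) := by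
        rintro ⟨a, b, ha, hb, hab⟩
        apply hab
        simp only [hodd a ha, hodd b hb, mul_zero]
      have h4 : 4 ≤ cut M (fun e => q e * w e) := by
        refine four_le hPar hCn hConn hprodF hprodS (a := M.ι (M.φ d)) (b := d) ?_
        simp only [hq1, hw2, hqd, hwd]
        decide
      have hsub := (hSub V D M q w).1
      refine ⟨fun e => q e + w e + q e * w e, fun e => by simp only [hqF e, hwF e],
        ⟨a0, b0, ha0, hb0, ?_⟩, ?_, ?_, by omega⟩
      · simp only [hodd a0 ha0, hodd b0 hb0, mul_zero, add_zero]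
        exact hab0
      · simp only [hw1, hqd, hwd, mul_one, mul_zero, add_zero]
        rcases z01 (q (M.ι d)) with h | h <;> rw [h] <;> decide
      · simp only [hq1, hw2, hqd, hwd]
        decide
    · -- all odd darts have the value one
      exfalso
      rw [hcase] at hodd
      have hsub := (hSub V D M q w).2
      have hAF : FC M (fun e => q e + q e * w e) := by
        intro e
        simp only [hqF e, hwF e]
      have hAS : ¬ Sep M (fun e => q e + q e * w e) := by
        rintro ⟨a, b, ha, hb, hab⟩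
        apply hab
        simp only [hodd a ha, hodd b hb, mul_one, zadd_self]
      have h4 : 4 ≤ cut M (fun e => q e + q e * w e) := by
        refine four_le hPar hCn hConn hAF hAS (a := M.ι (M.φ (M.φ d))) (b := d) ?_
        simp only [hq2, hw3, hqd, hwd]
        decide
      have hBF : FC M (fun e => w e + q e * w e) := by
        intro e
        simp only [hqF e, hwF e]
      have hBS : Sep M (fun e => w e + q e * w e) := by
        refine ⟨a0, b0, ha0, hb0, ?_⟩
        simp only [hodd a0 ha0, hodd b0 hb0, mul_one]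
        intro h
        exact hab0 (add_left_cancel h)
      have h5 := hHC _ hBF hBS
      have h6 : 1 ≤ {e | q e = 1 ∧ w e = 1 ∧ q (M.ι e) = 0 ∧ w (M.ι e) = 0}.ncard := by
        rw [Nat.one_le_iff_ne_zero, Ne, Set.ncard_eq_zero (Set.toFinite _)]
        intro h
        have h7 : M.ι (M.φ d) ∈ {e | q e = 1 ∧ w e = 1 ∧ q (M.ι e) = 0 ∧ w (M.ι e) = 0} := by
          refine ⟨hq1, hw2, ?_, ?_⟩
          · rw [M.inv, hqφ]
          · rw [M.inv, hwφ]
        rw [h] at h7
        exact h7
      omega

end Pool.Agent.Helper78.SO.IM
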