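import Pool.Agent.Helper77.SO.St

/-!
# Project SO: module MG (merging `W` in the plane)
-/

set_option autoImplicit false

namespace Pool.Agent.Helper78.SO.MG

open Equiv Equiv.Perm Pool.Agent.Helper35.PM Pool.Agent.Helper77.HY Pool.Agent.Helper77.OF4
  Pool.Agent.Helper77.SO

variable {V D : Type}

/-- the properties which are preserved -/
def Cnd (M : PMap V D) (W : Set V) (r' : Perm D) : Prop :=
  Pl r' M.ι ∧ (∀ d, M.t d ∉ W → r' d = M.r d) ∧
    ∀ p : D → ZMod 2, (∀ d, p (r' (M.ι d)) = p d) →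
      (∀ e, p (M.ι e) ≠ p e → M.t e ∉ W ∧ M.t (M.ι e) ∉ W) →
      ∀ a b, M.t a ∈ W → M.t b ∈ W → p a = p b

theorem mem_of_mem {M : PMap V D} {W : Set V} {r' : Perm D}
    (h : ∀ d, M.t d ∉ W → r' d = M.r d) (d : D) : M.t (r' d) ∈ W ↔ M.t d ∈ W := by
  constructor
  · intro h1
    by_contra h2
    rw [h d h2, M.t_r] at h1
    exact h2 h1
  · intro h1
    by_contra h2
    have h3 : M.t (M.r.symm (r' d)) = M.t (r' d) := by
      conv_rhs => rw [← M.r.apply_symm_apply (r' d), M.t_r]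
    have h4 : r' (M.r.symm (r' d)) = r' d := by
      rw [h _ (by rw [h3]; exact h2), M.r.apply_symm_apply]
    have h5 := r'.injective h4
    rw [h5] at h3
    exact h2 (h3 ▸ h1)

theorem pow_mem {M : PMap V D} {W : Set V} {r' : Perm D}
    (h : ∀ d, M.t d ∉ W → r' d = M.r d) (d : D) (hd : M.t d ∈ W) (n : ℕ) :
    M.t ((r' ^ n) d) ∈ W := by
  induction n with
  | zero => simpa using hd
  | succ n ih =>
    rw [pow_succ', Perm.mul_apply]
    exact (mem_of_mem h _).2 ih

theorem same_mem [Finite D] {M : PMap V D} {W : Set V} {r' : Perm D}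
    (h : ∀ d, M.t d ∉ W → r' d = M.r d) {d e : D} (hd : M.t d ∈ W) (hde : r'.SameCycle d e) :
    M.t e ∈ W := by
  obtain ⟨n, hn⟩ := hde.exists_nat_pow_eq
  rw [← hn]
  exact pow_mem h d hd n

/-- a function which is constant along `W`-darts -/
theorem const_of [Finite D] {M : PMap V D} {W : Set V} {r' : Perm D}
    (h : ∀ d, M.t d ∉ W → r' d = M.r d) {p : D → ZMod 2}
    (hp : ∀ e, M.t e ∈ W → p (r' e) = p e) {d e : D} (hd : M.t d ∈ W) (hde : r'.SameCycle d e) :
    p e = p d := by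
  obtain ⟨n, hn⟩ := hde.exists_nat_pow_eq
  rw [← hn]
  clear hn
  induction n with
  | zero => simp
  | succ n ih =>
    rw [pow_succ', Perm.mul_apply, hp _ (pow_mem h d hd n), ih]

/-- there are `W`-darts in different cycles of the rotation and in one face -/
theorem step1 [Finite D] {M : PMap V D} {W : Set V} {r' : Perm D} (hC : Cnd M W r') {x y : D}
    (hx : M.t x ∈ W) (hy : M.t y ∈ W) (hxy : ¬ r'.SameCycle x y) :
    ∃ a b, M.t a ∈ W ∧ M.t b ∈ W ∧ ¬ r'.SameCycle a b ∧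
      (r' * M.inv.toPerm).SameCycle a b := by
  classical
  obtain ⟨-, hC2, hC3⟩ := hC
  by_contra hcon
  push Not at hcon
  have hcon' : ∀ a b, M.t a ∈ W → M.t b ∈ W → (r' * M.inv.toPerm).SameCycle a b →
      r'.SameCycle a b := by
    intro a b ha hb hab
    by_contra h
    exact hcon a b ha hb h hab
  obtain ⟨φ', hφ⟩ : ∃ φ' : Perm D, φ' = r' * M.inv.toPerm := ⟨_, rfl⟩
  rw [← hφ] at hcon'
  have hφa : ∀ d, φ' d = r' (M.ι d) := by
    intro d
    rw [hφ]
    rfl
  have hφι : ∀ e, φ'.SameCycle (M.ι e) (r' e) := by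
    intro e
    have : r' e = φ' (M.ι e) := by rw [hφa, M.inv]
    rw [this, sameCycle_apply_right]
  obtain ⟨p, hp⟩ : ∃ p : D → ZMod 2, p = fun d =>
    if ∃ e, r'.SameCycle x e ∧ φ'.SameCycle e d then 1 else 0 := ⟨_, rfl⟩
  have hp1 : ∀ d, p (r' (M.ι d)) = p d := by
    intro d
    rw [hp]
    simp only [← hφa, sameCycle_apply_right]
  have hpA : ∀ e, M.t e ∈ W → (p e = 1 → r'.SameCycle x e) ∧ p (M.ι e) = p e := by
    intro e he
    have k1 : (∃ e', r'.SameCycle x e' ∧ φ'.SameCycle e' e) ↔ r'.SameCycle x e := by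
      constructor
      · rintro ⟨e', h1, h2⟩
        exact h1.trans (hcon' e' e (same_mem hC2 hx h1) he h2)
      · intro h1
        exact ⟨e, h1, SameCycle.refl _ _⟩
    have k2 : (∃ e', r'.SameCycle x e' ∧ φ'.SameCycle e' (M.ι e)) ↔ r'.SameCycle x e := by
      constructor
      · rintro ⟨e', h1, h2⟩
        have h3 := hcon' e' (r' e) (same_mem hC2 hx h1) ((mem_of_mem hC2 e).2 he)
          (h2.trans (hφι e))
        rw [sameCycle_apply_right] at h3
        exact h1.trans h3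
      · intro h1
        refine ⟨r' e, ?_, (hφι e).symm⟩
        rw [sameCycle_apply_right]
        exact h1
    constructor
    · intro h1
      rw [hp] at h1
      simp only [k1] at h1
      by_contra h2
      rw [if_neg h2] at h1
      exact zero_ne_one h1
    · rw [hp]
      simp only [k1, k2]
  have hp2 : ∀ e, p (M.ι e) ≠ p e → M.t e ∉ W ∧ M.t (M.ι e) ∉ W := by
    intro e he
    refine ⟨fun h => he (hpA e h).2, fun h => ?_⟩
    have h1 := (hpA (M.ι e) h).2
    rw [M.inv] at h1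
    exact he h1.symm
  have hpxy := hC3 p hp1 hp2 x y hx hy
  have hpx : p x = 1 := by
    rw [hp]
    simp only
    rw [if_pos ⟨x, SameCycle.refl _ _, SameCycle.refl _ _⟩]
  rw [hpx] at hpxy
  exact hxy ((hpA y hy).1 hpxy.symm)

/-- merging two cycles -/
theorem step2 [Finite D] [DecidableEq D] {M : PMap V D} {W : Set V} {r' : Perm D}
    (hC : Cnd M W r') {a b : D} (ha : M.t a ∈ W) (hb : M.t b ∈ W) (hab : ¬ r'.SameCycle a b)
    (hf : (r' * M.inv.toPerm).SameCycle (M.ι a) (M.ι b)) : Cnd M W (r' * swap a b) := by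
  have hne : a ≠ b := fun h => hab (h ▸ SameCycle.refl _ _)
  have hC0 := hC
  obtain ⟨hC1, hC2, hC3⟩ := hC
  have ho : ∀ d, M.t d ∉ W → (r' * swap a b) d = M.r d := by
    intro d hd
    have h1 : d ≠ a := by
      rintro rfl
      exact hd ha
    have h2 : d ≠ b := by
      rintro rfl
      exact hd hb
    rw [Perm.mul_apply, swap_apply_of_ne_of_ne h1 h2, hC2 d hd]
  have hA : (r' * swap a b) a = r' b := by rw [Perm.mul_apply, swap_apply_left]
  have hB : (r' * swap a b) b = r' a := by rw [Perm.mul_apply, swap_apply_right]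
  refine ⟨Pl.merge hC1 M.inv hne hf, ho, fun p hp1 hp2 => ?_⟩
  have hpA : ∀ e, M.t e ∈ W → p (M.ι e) = p e := by
    intro e he
    by_contra h
    exact (hp2 e h).1 he
  have hpr : ∀ e, M.t e ∈ W → p ((r' * swap a b) e) = p e := by
    intro e he
    have h1 := hp1 (M.ι e)
    rw [M.inv] at h1
    rw [h1, hpA e he]
  have hpab : p b = p a := const_of ho hpr ha (sameCycle_mul_swap hab)
  apply hC3 p _ hp2
  intro d
  by_cases h1 : M.ι d = a
  · have h2 : d = M.ι a := by rw [← h1, M.inv]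
    rw [h1, ← hB, hpr b hb, hpab, h2, hpA a ha]
  · by_cases h2 : M.ι d = b
    · have h3 : d = M.ι b := by rw [← h2, M.inv]
      rw [h2, ← hA, hpr a ha, ← hpab, h3, hpA b hb]
    · have h3 := hp1 d
      rw [Perm.mul_apply, swap_apply_of_ne_of_ne h1 h2] at h3
      exact h3

theorem main : StMg := by
  intro V D _ M W _ hInv
  classical
  have h0 : Cnd M W M.r := ⟨M.pl, fun _ _ => rfl, fun p hp => hInv p hp⟩
  have hne : Nonempty {r' : Perm D // Cnd M W r'} := ⟨⟨M.r, h0⟩⟩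
  obtain ⟨⟨r', hr'⟩, hmax⟩ := Finite.exists_max (fun r : {r' : Perm D // Cnd M W r'} =>
    {q : D × D | M.t q.1 ∈ W ∧ M.t q.2 ∈ W ∧ r.1.SameCycle q.1 q.2}.ncard)
  refine ⟨r', hr'.1, hr'.2.1, ?_⟩
  by_contra hcon
  push Not at hcon
  obtain ⟨x, y, hx, hy, hxy⟩ := hcon
  obtain ⟨a', b', ha', hb', hab', hf'⟩ := step1 hr' hx hy hxy
  obtain ⟨a, rfl⟩ := r'.surjective a'
  obtain ⟨b, rfl⟩ := r'.surjective b'
  rw [mem_of_mem hr'.2.1] at ha' hb'
  rw [sameCycle_apply_left, sameCycle_apply_right] at hab'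
  have hφ : ∀ c, r' c = (r' * M.inv.toPerm) (M.ι c) := by
    intro c
    show r' c = r' (M.ι (M.ι c))
    rw [M.inv]
  rw [hφ a, hφ b, sameCycle_apply_left, sameCycle_apply_right] at hf'
  have hnew := step2 hr' ha' hb' hab' hf'
  have hlt : {q : D × D | M.t q.1 ∈ W ∧ M.t q.2 ∈ W ∧ r'.SameCycle q.1 q.2}.ncard <
      {q : D × D | M.t q.1 ∈ W ∧ M.t q.2 ∈ W ∧ (r' * swap a b).SameCycle q.1 q.2}.ncard := by
    apply Set.ncard_lt_ncard _ (Set.toFinite _)
    refine ⟨fun q hq => ⟨hq.1, hq.2.1, SameCycle.mul_swap hab' hq.2.2⟩, fun h => ?_⟩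
    have h1 : ((a, b) : D × D) ∈
        {q : D × D | M.t q.1 ∈ W ∧ M.t q.2 ∈ W ∧ (r' * swap a b).SameCycle q.1 q.2} :=
      ⟨ha', hb', sameCycle_mul_swap hab'⟩
    exact hab' (h h1).2.2
  have := hmax ⟨r' * swap a b, hnew⟩
  simp only at this
  omega

end Pool.Agent.Helper78.SO.MG
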